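import Pool.Agent.TH773.FA.Cpy

/-! The patterns. -/

set_option autoImplicit false
set_option maxRecDepth 100000
open Finset

namespace Pool.Agent.TH354.Pr
open Pool.Agent.H37R3.Cop
open Pool.Agent.TH773.FA (Msk)

def F19 : Finset (Finset (Fin 6)) := {{0, 1, 2}, {0, 1, 3}, {0, 1, 4}}

theorem mask19 : Msk 19 F19 := by
  unfold Msk
  decide +kernel

def F183 : Finset (Finset (Fin 6)) := {{0, 1, 2}, {0, 1, 3}, {0, 2, 3}, {0, 1, 4}, {0, 2, 4}, {0, 3, 4}}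

theorem mask183 : Msk 183 F183 := by
  unfold Msk
  decide +kernel

def F3127 : Finset (Finset (Fin 6)) := {{0, 1, 2}, {0, 1, 3}, {0, 2, 3}, {0, 1, 4}, {0, 2, 4}, {0, 1, 5}, {0, 2, 5}}

theorem mask3127 : Msk 3127 F3127 := by
  unfold Msk
  decide +kernel

def F11447 : Finset (Finset (Fin 6)) := {{0, 1, 2}, {0, 1, 3}, {0, 2, 3}, {0, 1, 4}, {0, 2, 4}, {0, 3, 4}, {0, 1, 5}, {0, 2, 5}, {0, 3, 5}}

theorem mask11447 : Msk 11447 F11447 := by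
  unfold Msk
  decide +kernel

def F12486 : Finset (Finset (Fin 6)) := {{0, 1, 3}, {0, 2, 3}, {1, 2, 4}, {0, 3, 4}, {1, 2, 5}, {0, 3, 5}}

theorem mask12486 : Msk 12486 F12486 := by
  unfold Msk
  decide +kernel

def F15614 : Finset (Finset (Fin 6)) := {{0, 1, 3}, {0, 2, 3}, {1, 2, 3}, {0, 1, 4}, {0, 2, 4}, {1, 2, 4}, {0, 3, 4}, {0, 1, 5}, {0, 2, 5}, {1, 2, 5}, {0, 3, 5}}

theorem mask15614 : Msk 15614 F15614 := by
  unfold Msk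
  decide +kernel

def F32252 : Finset (Finset (Fin 6)) := {{0, 2, 3}, {1, 2, 3}, {0, 1, 4}, {0, 2, 4}, {1, 2, 4}, {0, 3, 4}, {1, 3, 4}, {0, 1, 5}, {0, 2, 5}, {1, 2, 5}, {0, 3, 5}, {1, 3, 5}}

theorem mask32252 : Msk 32252 F32252 := by
  unfold Msk
  decide +kernel

def F77054 : Finset (Finset (Fin 6)) := {{0, 1, 3}, {0, 2, 3}, {1, 2, 3}, {0, 1, 4}, {0, 2, 4}, {1, 2, 4}, {0, 3, 4}, {0, 1, 5}, {0, 2, 5}, {0, 3, 5}, {0, 4, 5}}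

theorem mask77054 : Msk 77054 F77054 := by
  unfold Msk
  decide +kernel

def F77147 : Finset (Finset (Fin 6)) := {{0, 1, 2}, {0, 1, 3}, {1, 2, 3}, {0, 1, 4}, {1, 2, 4}, {1, 3, 4}, {0, 1, 5}, {0, 2, 5}, {0, 3, 5}, {0, 4, 5}}

theorem mask77147 : Msk 77147 F77147 := by
  unfold Msk
  decide +kernel

def F77292 : Finset (Finset (Fin 6)) := {{0, 2, 3}, {1, 2, 3}, {0, 2, 4}, {1, 2, 4}, {0, 3, 4}, {1, 3, 4}, {0, 1, 5}, {0, 2, 5}, {0, 3, 5}, {0, 4, 5}}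

theorem mask77292 : Msk 77292 F77292 := by
  unfold Msk
  decide +kernel

def F78078 : Finset (Finset (Fin 6)) := {{0, 1, 3}, {0, 2, 3}, {1, 2, 3}, {0, 1, 4}, {0, 2, 4}, {1, 2, 4}, {0, 3, 4}, {1, 2, 5}, {0, 3, 5}, {0, 4, 5}}

theorem mask78078 : Msk 78078 F78078 := by
  unfold Msk
  decide +kernel

def F96747 : Finset (Finset (Fin 6)) := {{0, 1, 2}, {0, 1, 3}, {1, 2, 3}, {0, 2, 4}, {1, 2, 4}, {0, 3, 4}, {1, 3, 4}, {0, 2, 5}, {1, 2, 5}, {0, 3, 5}, {1, 3, 5}, {0, 4, 5}}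

theorem mask96747 : Msk 96747 F96747 := by
  unfold Msk
  decide +kernel

def F97788 : Finset (Finset (Fin 6)) := {{0, 2, 3}, {1, 2, 3}, {0, 1, 4}, {0, 2, 4}, {1, 2, 4}, {0, 3, 4}, {1, 3, 4}, {0, 1, 5}, {0, 2, 5}, {1, 2, 5}, {0, 3, 5}, {1, 3, 5}, {0, 4, 5}}

theorem mask97788 : Msk 97788 F97788 := by
  unfold Msk
  decide +kernel

def F119623 : Finset (Finset (Fin 6)) := {{0, 1, 2}, {0, 1, 3}, {0, 2, 3}, {1, 2, 4}, {1, 3, 4}, {2, 3, 4}, {1, 2, 5}, {1, 3, 5}, {2, 3, 5}, {0, 4, 5}}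

theorem mask119623 : Msk 119623 F119623 := by
  unfold Msk
  decide +kernel

def F120663 : Finset (Finset (Fin 6)) := {{0, 1, 2}, {0, 1, 3}, {0, 2, 3}, {0, 1, 4}, {1, 2, 4}, {1, 3, 4}, {2, 3, 4}, {0, 1, 5}, {1, 2, 5}, {1, 3, 5}, {2, 3, 5}, {0, 4, 5}}

theorem mask120663 : Msk 120663 F120663 := by
  unfold Msk
  decide +kernel

def F122742 : Finset (Finset (Fin 6)) := {{0, 1, 3}, {0, 2, 3}, {0, 1, 4}, {0, 2, 4}, {1, 2, 4}, {1, 3, 4}, {2, 3, 4}, {0, 1, 5}, {0, 2, 5}, {1, 2, 5}, {1, 3, 5}, {2, 3, 5}, {0, 4, 5}}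

theorem mask122742 : Msk 122742 F122742 := by
  unfold Msk
  decide +kernel

def F228027 : Finset (Finset (Fin 6)) := {{0, 1, 2}, {0, 1, 3}, {1, 2, 3}, {0, 1, 4}, {0, 2, 4}, {0, 3, 4}, {2, 3, 4}, {0, 2, 5}, {1, 2, 5}, {0, 3, 5}, {1, 3, 5}, {0, 4, 5}, {1, 4, 5}}

theorem mask228027 : Msk 228027 F228027 := by
  unfold Msk
  decide +kernel

end Pool.Agent.TH354.Pr
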