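import Pool.Agent.TH354.Pr.P03Chk
import Pool.Agent.TH354.Pr.P03Psd
import Pool.Agent.TH354.Pr.Pat
import Pool.Agent.TH354.FB.Gen

set_option autoImplicit false
set_option maxRecDepth 100000
set_option maxHeartbeats 4000000
open Finset

namespace Pool.Agent.TH354.Pr.P03
open Pool.Agent.H122R2.N6 Pool.Agent.H37R3.Pen Pool.Agent.H37R3.Cop Pool.Agent.H37R3.CopL
open Pool.Agent.TH773.FA (Msk)
open Pool.Agent.TH354.FB Pool.Agent.TH354.Pr

theorem hc (b012 b013 b023 b123 b014 b024 b124 b034 b134 b234 : ℕ) (hb012 : Bt b012) (hb013 : Bt b013) (hb023 : Bt b023) (hb123 : Bt b123) (hb014 : Bt b014) (hb024 : Bt b024) (hb124 : Bt b124) (hb034 : Bt b034) (hb134 : Bt b134) (hb234 : Bt b234) (ht : tg b012 b013 b023 b123 b014 b024 b124 b034 b134 b234 = 4) :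
    chkX q4 q2 CST PEN LST b012 b013 b023 b123 b014 b024 b124 b034 b134 b234 = true := by
  have h : part b012 b013 = true := by
    rcases hb012 with rfl | rfl <;> rcases hb013 with rfl | rfl
    exacts [part00, part01, part10, part11]
  have h2 := (B2_true (B2_true (B2_true (B2_true (B2_true (B2_true (B2_true (B2_true h hb023) hb123) hb014) hb024) hb124) hb034) hb134) hb234)
  refine or_false_left h2 ?_
  rw [ht]
  rfl

theorem c4 (r : ℕ) (hr : r < 4) : chk4 r = true := by
  interval_cases r
  exacts [cp0, cp1, cp2, cp3]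

theorem hq4 (c i j : ℕ) (hc : c < 16) (hi : i < 64) (hj : j < 64) : (q4 c i j : ℤ) =
    ∑ k ∈ range 78, (w4 (rho c) k : ℤ) * ((l4 (rho c) (pc c i) k : ℤ) - 131072) *
      ((l4 (rho c) (pc c j) k : ℤ) - 131072) + 4611686018427387904 :=
  q4_of (by norm_num) (fun r k => Nat.mod_lt _ (by norm_num)) (fun r i k => Nat.mod_lt _ (by norm_num))
    (fun r i j => Nat.mod_lt _ (by norm_num)) (by norm_num) rng c4 c i j hc hi hj

theorem hq2 (i j : ℕ) (hi : i < 16) (hj : j < 16) : (q2 i j : ℤ) =
    ∑ k ∈ range 9, (w2 k : ℤ) * ((l2 i k : ℤ) - 131072) * ((l2 j k : ℤ) - 131072)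
      + (4611686018427387904 + ((133837295488056000 : ℕ) : ℤ) * ((kk i j : ℕ) : ℤ)) := q2_of cpb i j hi hj

/-- codes of the listed structures with isomorphisms to the patterns -/
def TAB : List (ℕ × ℕ × ℕ) := [(11264, 19, 144488), (21504, 19, 144425), (38912, 19, 143914), (57344, 19, 139819), (68608, 19, 115816), (74752, 19, 83560), (75776, 19, 50856), (136192, 19, 115753), (148480, 19, 83497), (151552, 19, 18089), (268288, 19, 115242), (296960, 19, 50730), (299008, 19, 18026), (458752, 19, 107052), (548864, 19, 82475), (565248, 19, 50219), (573440, 19, 17515), (720896, 19, 78380), (851968, 19, 46124), (917504, 19, 13420), (1027, 19, 153224), (19, 19, 181896), (1044535, 97788, 144453), (520375, 97788, 144488), (776375, 97788, 140904), (906423, 97788, 136872), (948407, 97788, 108648), (963767, 97788, 104616), (969911, 97788, 71912), (227582, 97788, 146056), (374014, 97788, 146000), (975102, 97788, 164963), (1032446, 97788, 164956)]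

theorem iso : isoM LST TAB [19, 97788] = true := by decide +kernel

theorem masks : ∀ m ∈ ([19, 97788] : List ℕ), ∃ F ∈ ([F19, F97788] : List (Finset (Finset (Fin 6)))), Msk m F := by
  intro m hm
  simp only [List.mem_cons, List.not_mem_nil, or_false] at hm
  rcases hm with rfl | rfl
  exacts [⟨F19, by simp, mask19⟩,
  ⟨F97788, by simp, mask97788⟩]

open scoped Classical in
theorem main {V : Type} [Fintype V] {H : Finset (Finset V)} (hH : ∀ e ∈ H, e.card = 3)
    (hF : K43Free H) :
    54 * Fintype.card V ^ 3 * H.card ≤ 5 * Fintype.card V ^ 6 + 144 * 43 *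
      (((univ : Finset V).powersetCard 6).filter fun S => IndL [F19, F97788] H S).card +
        3 * 43 * Fintype.card V ^ 5 :=
  fin_five (T := 133837295488056000) (by norm_num) (fin_gen hH hF hq4 hq2 cs4 cs2 hc iso masks rfl)

end Pool.Agent.TH354.Pr.P03
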