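import Pool.Agent.TH354.Pr.P01Fin
import Pool.Agent.TH354.Pr.P02Fin
import Pool.Agent.TH354.Pr.P03Fin
import Pool.Agent.TH354.Pr.P04Fin
import Pool.Agent.TH354.Pr.P05Fin
import Pool.Agent.TH354.Pr.P06Fin
import Pool.Agent.TH354.Pr.P07Fin
import Pool.Agent.TH354.Pr.P08Fin
import Pool.Agent.TH354.Pr.P09Fin
import Pool.Agent.TH354.Pr.P10Fin
import Pool.Agent.TH354.Pr.P11Fin
import Pool.Agent.TH354.Pr.P12Fin
import Pool.Agent.TH354.Pr.P13Fin
import Pool.Agent.TH354.Pr.P14Fin
import Pool.Agent.TH354.Pr.P15Fin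
import Pool.Agent.TH354.Pr.P16Fin
import Pool.Agent.TH354.Pr.P17Fin
import Pool.Agent.TH354.Pr.P18Fin
import Pool.Agent.TH354.Pr.P19Fin
import Pool.Agent.TH354.Pr.P20Fin
import Pool.Agent.TH354.Pr.P21Fin
import Pool.Agent.TH354.Pr.P22Fin
import Pool.Agent.TH354.Pr.P23Fin
import Pool.Agent.TH354.Pr.P24Fin
import Pool.Agent.TH354.Pr.P25Fin
import Pool.Agent.TH354.Pr.P26Fin
import Pool.Agent.TH354.Pr.P27Fin
import Pool.Agent.TH354.Pr.P28Fin
import Pool.Agent.TH354.Pr.P29Fin
import Pool.Agent.TH354.Pr.P30Fin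
import Pool.Agent.TH354.Pr.P31Fin
import Pool.Agent.TH354.Pr.P32Fin
import Pool.Agent.TH354.Pr.P33Fin
import Pool.Agent.TH354.Pr.P34Fin

/-! All certificates together. -/

set_option autoImplicit false
set_option maxRecDepth 100000
open Finset

namespace Pool.Agent.TH354.Pr
open Pool.Agent.H122R2.N6 Pool.Agent.H37R3.Pen Pool.Agent.H37R3.Cop Pool.Agent.H37R3.CopL

/-- the pairs of patterns -/
def prs : List (Finset (Finset (Fin 6)) × Finset (Finset (Fin 6))) := [(F183, F96747),
  (F19, F78078),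
  (F19, F97788),
  (F19, F228027),
  (F3127, F11447),
  (F3127, F78078),
  (F3127, F97788),
  (F3127, F228027),
  (F11447, F97788),
  (F11447, F228027),
  (F12486, F78078),
  (F12486, F97788),
  (F12486, F228027),
  (F15614, F96747),
  (F32252, F77292),
  (F32252, F78078),
  (F32252, F97788),
  (F32252, F122742),
  (F32252, F228027),
  (F77054, F78078),
  (F77054, F97788),
  (F77054, F228027),
  (F77147, F96747),
  (F77292, F96747),
  (F78078, F96747),
  (F78078, F120663),
  (F96747, F97788),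
  (F96747, F122742),
  (F96747, F228027),
  (F97788, F119623),
  (F97788, F120663),
  (F119623, F228027),
  (F120663, F122742),
  (F120663, F228027)]

open scoped Classical in
theorem all {V : Type} [Fintype V] {H : Finset (Finset V)} (hH : ∀ e ∈ H, e.card = 3)
    (hF : K43Free H) {p : Finset (Finset (Fin 6)) × Finset (Finset (Fin 6))} (hp : p ∈ prs) :
    54 * Fintype.card V ^ 3 * H.card ≤ 5 * Fintype.card V ^ 6 + 6192 *
      (((univ : Finset V).powersetCard 6).filter fun S => IndL [p.1, p.2] H S).card +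
        129 * Fintype.card V ^ 5 := by
  simp only [prs, List.mem_cons, List.not_mem_nil, or_false] at hp
  rcases hp with rfl | rfl | rfl | rfl | rfl | rfl | rfl | rfl | rfl | rfl | rfl | rfl | rfl | rfl | rfl | rfl | rfl | rfl | rfl | rfl | rfl | rfl | rfl | rfl | rfl | rfl | rfl | rfl | rfl | rfl | rfl | rfl | rfl | rfl
  exacts [P01.main hH hF, P02.main hH hF, P03.main hH hF, P04.main hH hF, P05.main hH hF, P06.main hH hF, P07.main hH hF, P08.main hH hF, P09.main hH hF, P10.main hH hF, P11.main hH hF, P12.main hH hF, P13.main hH hF, P14.main hH hF, P15.main hH hF, P16.main hH hF, P17.main hH hF, P18.main hH hF, P19.main hH hF, P20.main hH hF, P21.main hH hF, P22.main hH hF, P23.main hH hF, P24.main hH hF, P25.main hH hF, P26.main hH hF, P27.main hH hF, P28.main hH hF, P29.main hH hF, P30.main hH hF, P31.main hH hF, P32.main hH hF, P33.main hH hF, P34.main hH hF]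

end Pool.Agent.TH354.Pr
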