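import Pool.Agent.TH354.Pr.P01Tab
import Pool.Agent.H37R3.Pen

set_option autoImplicit false
set_option maxRecDepth 100000

namespace Pool.Agent.TH354.Pr.P01
open Pool.Agent.H122R2.N6 Pool.Agent.H37R3.Pen

noncomputable def part (b012 b013 : ℕ) : Bool := B2 fun b023 => B2 fun b123 => B2 fun b014 => B2 fun b024 => B2 fun b124 => B2 fun b034 => B2 fun b134 => B2 fun b234 => or (not (Nat.beq (tg b012 b013 b023 b123 b014 b024 b124 b034 b134 b234) 4)) (chkX q4 q2 CST PEN LST b012 b013 b023 b123 b014 b024 b124 b034 b134 b234)

theorem part00 : part 0 0 = true := by decide +kernel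
theorem part01 : part 0 1 = true := by decide +kernel
theorem part10 : part 1 0 = true := by decide +kernel
theorem part11 : part 1 1 = true := by decide +kernel

end Pool.Agent.TH354.Pr.P01
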